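import Pool.Agent.Results.MP_c19edd_an.CantorCriterion

/-!
# The achievement set of `1/2, 1/5, 1/8, 1/17, ...` is a Cantor set (MP_1e50ba_an)
-/

set_option autoImplicit false

open Set Filter Topology MeasureTheory

namespace Pool.Agent.Results.MP_1e50ba_an.CantorType

/-- The terms: `x_n = 1 / 2^n` for odd `n` and `x_n = 1 / (2^n + 1)` for even `n`
(only `n ≥ 1` matters). -/
noncomputable def x (n : ℕ) : ℝ := if Odd n then 1 / 2 ^ n else 1 / (2 ^ n + 1)

/-- The achievement set `E(y_n)`: all sums of `y_n` over `n ∈ A`, `A` a set of positive integers. -/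
def achievementSet (y : ℕ → ℝ) : Set ℝ :=
  {s : ℝ | ∃ A : Set ℕ, A ⊆ {n | 1 ≤ n} ∧ s = ∑' n, A.indicator y n}

/-- The set is homeomorphic to the ternary Cantor set. -/
def IsCantor (E : Set ℝ) : Prop := Nonempty (E ≃ₜ cantorSet)

lemma x_pos (n : ℕ) : 0 < x n := by
  unfold x
  split_ifs <;> positivity

lemma x_le (n : ℕ) : x n ≤ 1 / 2 ^ n := by
  unfold x
  split_ifs
  · exact le_rfl
  · apply one_div_le_one_div_of_le (by positivity)
    linarith

lemma x_close (n : ℕ) : |x n - 1 / 2 ^ n| ≤ 1 * ((1 / 2) ^ n / 2 ^ n) := by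
  rw [abs_sub_comm, abs_of_nonneg (by linarith [x_le n])]
  unfold x
  split_ifs
  · rw [sub_self]; positivity
  · have h : (0:ℝ) < 2 ^ n := by positivity
    rw [one_div_pow, one_mul, div_div, div_sub_div _ _ h.ne' (by positivity),
      div_le_div_iff₀ (by positivity) (by positivity)]
    ring_nf
    nlinarith

lemma x_summable : Summable x := by
  have h : Summable (fun n : ℕ => (1 / 2 : ℝ) ^ n) :=
    summable_geometric_of_lt_one (by norm_num) (by norm_num)
  refine Summable.of_nonneg_of_le (fun n => (x_pos n).le) (fun n => ?_) h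
  rw [one_div_pow]
  exact x_le n

/-- The gap `x_l - r_l` for odd `l`. -/
lemma gap_odd (l : ℕ) (hl : Odd l) :
    1 / 8 * ((1 / 2) ^ l / 2 ^ l) ≤ x l - ∑' i, x (i + (l + 1)) := by
  have hgeo := Pool.Agent.Y805.AS.geo l
  have hs1 : Summable (fun i => x (i + (l + 1))) := (summable_nat_add_iff (l + 1)).mpr x_summable
  have hxl : x l = 1 / 2 ^ l := by unfold x; rw [if_pos hl]
  have hsub : HasSum (fun i : ℕ => (1 : ℝ) / 2 ^ (i + (l + 1)) - x (i + (l + 1)))
      (1 / 2 ^ l - ∑' i, x (i + (l + 1))) := hgeo.sub hs1.hasSum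
  rw [hxl, ← hsub.tsum_eq]
  have hterm : (1 : ℝ) / 2 ^ (0 + (l + 1)) - x (0 + (l + 1)) ≤
      ∑' i : ℕ, ((1 : ℝ) / 2 ^ (i + (l + 1)) - x (i + (l + 1))) :=
    hsub.summable.le_tsum 0 (fun i _ => by linarith [x_le (i + (l + 1))])
  refine le_trans ?_ hterm
  have hnot : ¬ Odd (l + 1) := by
    rw [Nat.not_odd_iff_even]; exact hl.add_one
  rw [zero_add]
  unfold x
  rw [if_neg hnot]
  have h : (1:ℝ) ≤ 2 ^ l := one_le_pow₀ (by norm_num)
  rw [pow_succ, div_sub_div _ _ (by positivity) (by positivity), one_div_pow, div_div,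
    ← mul_div_assoc, div_le_div_iff₀ (by positivity) (by positivity)]
  nlinarith

/-- The achievement set of the sequence `x_{2n-1} = 1/2^{2n-1}`, `x_{2n} = 1/(2^{2n} + 1)` is a
Cantor set, of positive Lebesgue measure. -/
theorem result : IsCantor (achievementSet x) ∧ 0 < volume (achievementSet x) := by
  have h := Pool.Agent.Results.MP_c19edd_an.CantorCriterion.criterion x
    (fun n => (1 / 2 : ℝ) ^ n) 1 (1 / 8) 2
    (by norm_num) (fun n _ => x_pos n) (fun n => by positivity)
    (fun a b hab => pow_le_pow_of_le_one (by norm_num) (by norm_num) hab)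
    (tendsto_pow_atTop_nhds_zero_of_lt_one (by norm_num) (by norm_num))
    (fun n _ => x_close n) (by
      intro n
      obtain ⟨l, hl1, hl2, hl3⟩ : ∃ l, n ≤ l ∧ l < n + 2 ∧ Odd l := by
        rcases Nat.even_or_odd n with hn | hn
        · exact ⟨n + 1, by omega, by omega, hn.add_one⟩
        · exact ⟨n, le_rfl, by omega, hn⟩
      exact ⟨l, hl1, hl2, gap_odd l hl3⟩)
  exact ⟨h.1, h.2 (summable_geometric_of_lt_one (by norm_num) (by norm_num))⟩

end Pool.Agent.Results.MP_1e50ba_an.CantorType
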